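import Pool.Agent.Y19.TP.Stm

/-!
# Project TP: no other preimages near periodic points (helper171)
-/

set_option autoImplicit false

namespace Pool.Agent.Y171.TP

open Polynomial Function Pool.Agent.Y19.TP

section

variable {U : Type} [NormedField U] [IsUltrametricDist U]

lemma ultra_add {a b : U} {C : ℝ} (ha : ‖a‖ ≤ C) (hb : ‖b‖ ≤ C) : ‖a + b‖ ≤ C :=
  (IsUltrametricDist.norm_add_le_max a b).trans (max_le ha hb)

lemma ultra_sub3 {a b c : U} {C : ℝ} (ha : ‖a - b‖ ≤ C) (hb : ‖b - c‖ ≤ C) : ‖a - c‖ ≤ C := by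
  have : a - c = (a - b) + (b - c) := by ring
  rw [this]
  exact ultra_add ha hb

lemma ultra_lt {a b c : U} {C : ℝ} (ha : ‖a - b‖ < C) (hb : ‖b - c‖ < C) : ‖a - c‖ < C := by
  have : a - c = (a - b) + (b - c) := by ring
  rw [this]
  exact (IsUltrametricDist.norm_add_le_max _ _).trans_lt (max_lt ha hb)

lemma norm_pow_sub (h k : U) (M : ℝ) (hh : ‖h‖ ≤ M) (hk : ‖k‖ ≤ M) (i : ℕ) :
    ‖h ^ (i + 1) - k ^ (i + 1)‖ ≤ ‖h - k‖ * M ^ i := by
  have hM : 0 ≤ M := (norm_nonneg h).trans hh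
  induction i with
  | zero => simp
  | succ i ih =>
    have e : h ^ (i + 1 + 1) - k ^ (i + 1 + 1) =
        h * (h ^ (i + 1) - k ^ (i + 1)) + (h - k) * k ^ (i + 1) := by ring
    rw [e]
    apply ultra_add
    · rw [norm_mul]
      calc ‖h‖ * ‖h ^ (i + 1) - k ^ (i + 1)‖ ≤ M * (‖h - k‖ * M ^ i) :=
            mul_le_mul hh ih (norm_nonneg _) hM
        _ = ‖h - k‖ * M ^ (i + 1) := by ring
    · rw [norm_mul, norm_pow]
      exact mul_le_mul_of_nonneg_left (pow_le_pow_left₀ (norm_nonneg _) hk _) (norm_nonneg _)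

lemma eval_sub_eq (g : U[X]) (h k : U) : g.eval h - g.eval k =
    ∑ i ∈ Finset.range (g.natDegree + 1), g.coeff i * (h ^ i - k ^ i) := by
  rw [eval_eq_sum_range, eval_eq_sum_range, ← Finset.sum_sub_distrib]
  exact Finset.sum_congr rfl fun i _ => by ring

lemma eval_sub_le {g : U[X]} (hg : ∀ i, ‖g.coeff i‖ ≤ 1) (h k : U) (hh : ‖h‖ ≤ 1)
    (hk : ‖k‖ ≤ 1) : ‖g.eval h - g.eval k‖ ≤ ‖h - k‖ := by
  rw [eval_sub_eq]
  refine IsUltrametricDist.norm_sum_le_of_forall_le_of_nonneg (norm_nonneg _) fun i _ => ?_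
  rw [norm_mul]
  rcases i with _ | i
  · simp
  · have h1 := norm_pow_sub h k 1 hh hk i
    rw [one_pow, mul_one] at h1
    calc ‖g.coeff (i + 1)‖ * ‖h ^ (i + 1) - k ^ (i + 1)‖ ≤ 1 * ‖h - k‖ :=
          mul_le_mul (hg _) h1 (norm_nonneg _) zero_le_one
      _ = ‖h - k‖ := one_mul _

lemma eval_sub_le' {g : U[X]} (hg : ∀ i, ‖g.coeff i‖ ≤ 1) (hg1 : g.coeff 1 = 0) (h k : U)
    (M : ℝ) (hM : M ≤ 1) (hh : ‖h‖ ≤ M) (hk : ‖k‖ ≤ M) :
    ‖g.eval h - g.eval k‖ ≤ ‖h - k‖ * M := by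
  have hM0 : 0 ≤ M := (norm_nonneg h).trans hh
  rw [eval_sub_eq]
  refine IsUltrametricDist.norm_sum_le_of_forall_le_of_nonneg
    (mul_nonneg (norm_nonneg _) hM0) fun i _ => ?_
  rw [norm_mul]
  rcases i with _ | _ | i
  · simp
    exact mul_nonneg (norm_nonneg _) hM0
  · rw [zero_add, hg1, norm_zero, zero_mul]
    exact mul_nonneg (norm_nonneg _) hM0
  · have h1 := norm_pow_sub h k M hh hk (i + 1)
    have h2 : M ^ (i + 1) ≤ M := by
      rw [pow_succ]
      exact mul_le_of_le_one_left hM0 (pow_le_one₀ hM0 hM)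
    calc ‖g.coeff (i + 1 + 1)‖ * ‖h ^ (i + 1 + 1) - k ^ (i + 1 + 1)‖
        ≤ 1 * (‖h - k‖ * M ^ (i + 1)) := mul_le_mul (hg _) h1 (norm_nonneg _) zero_le_one
      _ = ‖h - k‖ * M ^ (i + 1) := one_mul _
      _ ≤ ‖h - k‖ * M := mul_le_mul_of_nonneg_left h2 (norm_nonneg _)

lemma eval_le {g : U[X]} (hg : ∀ i, ‖g.coeff i‖ ≤ 1) (h : U) (hh : ‖h‖ ≤ 1) :
    ‖g.eval h‖ ≤ 1 := by
  rw [eval_eq_sum_range]
  refine IsUltrametricDist.norm_sum_le_of_forall_le_of_nonneg zero_le_one fun i _ => ?_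
  rw [norm_mul, norm_pow]
  exact mul_le_one₀ (hg i) (pow_nonneg (norm_nonneg _) _) (pow_le_one₀ (norm_nonneg _) hh)

lemma taylor_le {g : U[X]} (hg : ∀ i, ‖g.coeff i‖ ≤ 1) (c : U) (hc : ‖c‖ ≤ 1) (i : ℕ) :
    ‖(taylor c g).coeff i‖ ≤ 1 := by
  rw [taylor_coeff]
  refine eval_le (fun n => ?_) c hc
  rw [hasseDeriv_coeff, norm_mul]
  exact mul_le_one₀ (IsUltrametricDist.norm_natCast_le_one U _) (norm_nonneg _) (hg _)

/-- near a critical point the polynomial is contracting -/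
lemma crit_le {g : U[X]} (hg : ∀ i, ‖g.coeff i‖ ≤ 1) (c : U) (hc : ‖c‖ ≤ 1)
    (hc' : (derivative g).eval c = 0) (y z : U) (M : ℝ) (hM : M ≤ 1) (hy : ‖y - c‖ ≤ M)
    (hz : ‖z - c‖ ≤ M) : ‖g.eval y - g.eval z‖ ≤ ‖y - z‖ * M := by
  have h1 := eval_sub_le' (taylor_le hg c hc) (by rw [taylor_coeff_one]; exact hc') (y - c) (z - c)
    M hM hy hz
  rw [taylor_eval, taylor_eval, sub_add_cancel, sub_add_cancel] at h1
  have e : y - c - (z - c) = y - z := by ring
  rwa [e] at h1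

end

theorem t_DISC : ROLLE → DISC := by
  classical
  intro hR U _ _ _ _ d hd hT f hmon hdeg hf hpcf w hw hwp x hxw hfx
  set F : U → U := fun z => f.eval z with hF
  by_contra hne
  have hd1 : 1 ≤ d := by omega
  -- iterates stay in the unit ball
  have hball : ∀ (n : ℕ) (z : U), ‖z‖ ≤ 1 → ‖F^[n] z‖ ≤ 1 := by
    intro n
    induction n with
    | zero => intro z hz; exact hz
    | succ n ih =>
      intro z hz
      rw [iterate_succ_apply]
      exact ih _ (eval_le hf z hz)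
  have hnear : ∀ a b : U, ‖a‖ ≤ 1 → ‖b - a‖ < 1 → ‖b‖ ≤ 1 := by
    intro a b ha hb
    have : b = (b - a) + a := by ring
    rw [this]
    exact ultra_add hb.le ha
  have hlip : ∀ (n : ℕ) (y z : U), ‖y‖ ≤ 1 → ‖z‖ ≤ 1 → ‖F^[n] y - F^[n] z‖ ≤ ‖y - z‖ := by
    intro n
    induction n with
    | zero => intro y z _ _; exact le_rfl
    | succ n ih =>
      intro y z hy hz
      rw [iterate_succ_apply, iterate_succ_apply]
      exact (ih _ _ (eval_le hf y hy) (eval_le hf z hz)).trans (eval_sub_le hf y z hy hz)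
  -- the lemma of Rolle
  have hroll : ∀ v y : U, y ≠ v → F y = F v → ∃ c : U, (derivative f).eval c = 0 ∧
      ‖c - v‖ = ‖y - v‖ ∧ F c ≠ F v := by
    intro v y hyv hFy
    obtain ⟨c, h1, h2, h3⟩ := hR U d hd1 hT (f - C (F v)) (by rw [natDegree_sub_C]; exact hdeg)
      v y (Ne.symm hyv) (by simp [hF]) (by
        have : f.eval y = f.eval v := hFy
        simp [hF, this])
    rw [derivative_sub, derivative_C, sub_zero] at h1
    refine ⟨c, h1, le_antisymm h2 (h3 v (by simp [hF])), fun h4 => ?_⟩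
    have h5 := h3 c (by
      have : f.eval c = f.eval v := h4
      simp [hF, this])
    rw [sub_self, norm_zero] at h5
    exact hyv (sub_eq_zero.1 (norm_le_zero_iff.1 h5))
  -- the first critical point
  obtain ⟨c1, hc1, hc1w, -⟩ := hroll w x hne hfx
  rw [← hc1w] at hxw
  obtain ⟨m, hm0, hm⟩ := hwp
  have hmF : F^[m] w = w := hm
  have hwj : ∀ j : ℕ, ‖F^[j] w‖ ≤ 1 := fun j => hball j w hw
  -- uniqueness
  have huniq : ∀ (j : ℕ) (y : U), y ∈ periodicPts F → ‖y - F^[j] w‖ < 1 → y = F^[j] w := by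
    intro j y hy hyj
    obtain ⟨m', hm'0, hm'⟩ := hy
    by_contra hcon
    have hy1 : ‖y‖ ≤ 1 := hnear _ _ (hwj j) hyj
    set v := F^[j] w with hv
    have hvm : F^[m] v = v := by
      rw [hv, ← iterate_add_apply, add_comm, iterate_add_apply, hmF]
    have hN : ∀ k : ℕ, F^[k * (m * m')] y = y ∧ F^[k * (m * m')] v = v := by
      intro k
      constructor
      · have h1 : IsPeriodicPt F (k * (m * m')) y := by
          have := hm'.const_mul (k * m)
          rwa [mul_assoc] at this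
        exact h1
      · have h1 : IsPeriodicPt F m v := hvm
        have h2 := h1.const_mul (k * m')
        have e : k * m' * m = k * (m * m') := by ring
        rw [e] at h2
        exact h2
    have hD0 : 0 < ‖y - v‖ := norm_pos_iff.2 (sub_ne_zero.2 hcon)
    -- the distance at all times is the same
    have hge : ∀ n : ℕ, ‖y - v‖ ≤ ‖F^[n] y - F^[n] v‖ := by
      intro n
      have h1 : n ≤ n * (m * m') := Nat.le_mul_of_pos_right n (Nat.mul_pos hm0 hm'0)
      obtain ⟨l, hl⟩ := Nat.exists_eq_add_of_le h1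
      have h2 := hlip l (F^[n] y) (F^[n] v) (hball n y hy1) (hball n v (hwj j))
      rw [← iterate_add_apply, ← iterate_add_apply, add_comm l n, ← hl, (hN n).1, (hN n).2] at h2
      exact h2
    -- the time at which `v` is at `w`
    have h3 : F^[j * m - j] v = w := by
      have h4 : j ≤ j * m := Nat.le_mul_of_pos_right j hm0
      rw [hv, ← iterate_add_apply, Nat.sub_add_cancel h4]
      exact (show IsPeriodicPt F m w from hm).const_mul j
    set n := j * m - j with hn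
    have h5 : ‖F^[n] y - w‖ < 1 := by
      rw [← h3]
      exact (hlip n y v hy1 (hwj j)).trans_lt hyj
    have h6 := hge (n + 1)
    rw [iterate_succ_apply', iterate_succ_apply', h3] at h6
    have h7 : ‖F^[n] y - w‖ ≤ ‖y - v‖ := by
      rw [← h3]
      exact hlip n y v hy1 (hwj j)
    have h8 : ‖F^[n] y - c1‖ < 1 := ultra_lt h5 (by rw [norm_sub_rev]; exact hxw)
    have h9 : ‖w - c1‖ < 1 := by rw [norm_sub_rev]; exact hxw
    have h10 := crit_le hf c1 (hnear w c1 hw hxw) hc1 (F^[n] y) w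
      (max ‖F^[n] y - c1‖ ‖w - c1‖) (max_le h8.le h9.le) (le_max_left _ _) (le_max_right _ _)
    have h11 : ‖F (F^[n] y) - F w‖ ≤ ‖F^[n] y - w‖ * max ‖F^[n] y - c1‖ ‖w - c1‖ := h10
    have h12 : max ‖F^[n] y - c1‖ ‖w - c1‖ < 1 := max_lt h8 h9
    have h13 : ‖F^[n] y - w‖ * max ‖F^[n] y - c1‖ ‖w - c1‖ ≤
        ‖y - v‖ * max ‖F^[n] y - c1‖ ‖w - c1‖ :=
      mul_le_mul_of_nonneg_right h7 (le_max_of_le_left (norm_nonneg _))
    have h14 : ‖y - v‖ * max ‖F^[n] y - c1‖ ‖w - c1‖ < ‖y - v‖ * 1 :=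
      mul_lt_mul_of_pos_left h12 hD0
    linarith
  -- critical points near the orbit are eventually on it
  have hcap : ∀ (j : ℕ) (c : U), (derivative f).eval c = 0 → ‖c - F^[j] w‖ < 1 →
      ∃ s : ℕ, F^[s] c = F^[s] (F^[j] w) := by
    intro j c hc hcj
    have hfin := hpcf c hc
    obtain ⟨a, b, hab, hFab⟩ : ∃ a b : ℕ, a < b ∧ F^[a] c = F^[b] c := by
      by_contra hcon
      push Not at hcon
      have hinj : Function.Injective (fun n : ℕ => F^[n] c) := by
        intro a b h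
        rcases lt_trichotomy a b with h1 | h1 | h1
        · exact absurd h (hcon a b h1)
        · exact h1
        · exact absurd h.symm (hcon b a h1)
      exact Set.infinite_range_of_injective hinj hfin
    refine ⟨a, ?_⟩
    have hper : F^[a] c ∈ periodicPts F := by
      refine ⟨b - a, by omega, ?_⟩
      show F^[b - a] (F^[a] c) = F^[a] c
      rw [← iterate_add_apply, Nat.sub_add_cancel hab.le]
      exact hFab.symm
    have h1 : F^[a] (F^[j] w) = F^[a + j] w := by rw [iterate_add_apply]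
    rw [h1]
    refine huniq (a + j) _ hper ?_
    rw [← h1]
    exact (hlip a c (F^[j] w) (hnear _ _ (hwj j) hcj) (hwj j)).trans_lt hcj
  -- the pairs
  have hO : (Set.range fun j : ℕ => F^[j] w).Finite := by
    refine ((Finset.range m).image (fun j => F^[j] w)).finite_toSet.subset ?_
    rintro _ ⟨j, rfl⟩
    rw [Finset.coe_image]
    refine ⟨j % m, ?_, ?_⟩
    · rw [Finset.coe_range]
      exact Nat.mod_lt _ hm0
    · exact (show IsPeriodicPt F m w from hm).iterate_mod_apply j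
  have hder : derivative f ≠ 0 := by
    intro h
    have := derivative_eq_zero.1 h
    omega
  have hCr : {c : U | (derivative f).eval c = 0}.Finite := by
    refine (derivative f).roots.toFinset.finite_toSet.subset ?_
    intro c hc
    simp only [Finset.mem_coe, Multiset.mem_toFinset]
    rw [mem_roots hder]
    exact hc
  let P : Set (U × U) := {q | q.1 ∈ (Set.range fun j : ℕ => F^[j] w) ∧
    (derivative f).eval q.2 = 0 ∧ 0 < ‖q.2 - q.1‖ ∧ ‖q.2 - q.1‖ < 1}
  have hPfin : P.Finite := by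
    refine (hO.prod hCr).subset ?_
    rintro ⟨v, c⟩ ⟨h1, h2, -, -⟩
    exact ⟨h1, h2⟩
  have hPne : P.Nonempty := by
    refine ⟨(w, c1), ⟨0, rfl⟩, hc1, ?_, hxw⟩
    show 0 < ‖c1 - w‖
    rw [hc1w]
    exact norm_pos_iff.2 (sub_ne_zero.2 hne)
  obtain ⟨⟨v, c'⟩, hvc, hmin⟩ := Set.exists_min_image P (fun q => ‖q.2 - q.1‖) hPfin hPne
  obtain ⟨⟨j, hj⟩, hc', hr0, hr1⟩ := hvc
  simp only at hj hc' hr0 hr1 hmin
  set r := ‖c' - v‖ with hr
  have hv1 : ‖v‖ ≤ 1 := by rw [← hj]; exact hwj j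
  -- the claim
  have claim : ∀ c : U, (derivative f).eval c = 0 → ‖c - v‖ = r → F c = F v := by
    intro c hc hcr
    have hex : ∃ s : ℕ, F^[s] c = F^[s] v := by
      rw [← hj]
      exact hcap j c hc (by rw [hj, hcr]; exact hr1)
    classical
    have hs := Nat.find_spec hex
    have hsmin := fun k => Nat.find_min (H := hex) (m := k)
    set s := Nat.find hex with hsdef
    have hcv : c ≠ v := by
      rintro rfl
      rw [sub_self, norm_zero] at hcr
      linarith
    have hc1' : ‖c‖ ≤ 1 := hnear v c hv1 (by rw [hcr]; exact hr1)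
    rcases hs0 : s with _ | t
    · rw [hs0] at hs
      exact absurd hs hcv
    · have hyt : F^[t] c ≠ F^[t] v := hsmin t (by omega)
      rw [hs0, iterate_succ_apply', iterate_succ_apply'] at hs
      obtain ⟨c2, h1, h2, -⟩ := hroll (F^[t] v) (F^[t] c) hyt hs
      have h3 : ‖F^[t] c - F^[t] v‖ ≤ r := (hlip t c v hc1' hv1).trans hcr.le
      have h4 : 0 < ‖F^[t] c - F^[t] v‖ := norm_pos_iff.2 (sub_ne_zero.2 hyt)
      have h5 : r ≤ ‖c2 - F^[t] v‖ := by
        refine hmin (F^[t] v, c2) ⟨⟨t + j, ?_⟩, h1, ?_, ?_⟩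
        · show F^[t + j] w = F^[t] v
          rw [iterate_add_apply, hj]
        · show 0 < ‖c2 - F^[t] v‖
          rw [h2]; exact h4
        · show ‖c2 - F^[t] v‖ < 1
          rw [h2]; exact h3.trans_lt hr1
      rcases t with _ | t
      · exact hs
      · exfalso
        have h6 : ‖F c - F v‖ ≤ ‖c - v‖ * r :=
          crit_le hf c hc1' hc c v r hr1.le (by rw [sub_self, norm_zero]; exact hr0.le)
            (by rw [norm_sub_rev, hcr])
        have h7 : ‖F^[t + 1] c - F^[t + 1] v‖ ≤ ‖F c - F v‖ := by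
          rw [iterate_succ_apply, iterate_succ_apply]
          exact hlip t _ _ (eval_le hf c hc1') (eval_le hf v hv1)
        rw [h2] at h5
        rw [hcr] at h6
        have h8 : r * r < r * 1 := mul_lt_mul_of_pos_left hr1 hr0
        linarith
  have hcv : c' ≠ v := by
    intro h
    rw [hr, h, sub_self, norm_zero] at hr0
    exact lt_irrefl _ hr0
  obtain ⟨c'', h1, h2, h3⟩ := hroll v c' hcv (claim c' hc' rfl)
  exact h3 (claim c'' h1 h2)

end Pool.Agent.Y171.TP
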